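import Pool.Agent.H44.DU.Targets2

/-!
# The letters of an orbit are eventually periodic
-/

set_option autoImplicit false

namespace Pool.Agent.H50.DU

open Pool.Agent.H44.DU

theorem pf_L5 (h : T_L3) : T_L5 := by
  intro n S V t m hm hnb y hy hV
  obtain ⟨K, K', hne, hKK⟩ := Finite.exists_ne_map_eq_of_infinite
    (fun K : ℕ => (fun j : Fin m => (y (K + j)).1 : Fin m → Side n))
  have main : ∀ K K' : ℕ, K < K' →
      (∀ j < m, (y (K' + j)).1 = (y (K + j)).1) →
      ∃ K p : ℕ, 0 < p ∧ ∀ k ≥ K, (y (k + p)).1 = (y k).1 := by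
    intro K K' hlt hj
    have h2 := (h n S V t m hm hnb (fun j => y (K + j)) (fun k => hy (K + k))
      (fun k => hV (K + k))).2 (fun j => y (K' + j)) (fun k => hy (K' + k)) hj
    refine ⟨K, K' - K, by omega, ?_⟩
    intro k hk
    have h3 := h2 (k - K)
    rw [show K' + (k - K) = k + (K' - K) by omega, show K + (k - K) = k by omega] at h3
    exact h3
  rcases lt_or_gt_of_ne hne with hlt | hlt
  · exact main K K' hlt fun j hj => (congrFun hKK ⟨j, hj⟩).symm
  · exact main K' K hlt fun j hj => congrFun hKK ⟨j, hj⟩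

end Pool.Agent.H50.DU
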